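import Mathlib

/-!
One suitable translate gives infinitely many translates in the set of sums of two squares.
-/

set_option autoImplicit false

namespace Pool.Agent.TH740.SQ

/-- `a n ^ 2` is a square only if `a` is. -/
theorem sq_of_mul {a n : ℤ} (hn : n ≠ 0) (h : IsSquare (a * n ^ 2)) : IsSquare a := by
  obtain ⟨r, hr⟩ := h
  have h1 : n ^ 2 ∣ r ^ 2 := ⟨a, by rw [pow_two r, ← hr]; ring⟩
  obtain ⟨k, hk⟩ := (Int.pow_dvd_pow_iff (two_ne_zero)).1 h1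
  refine ⟨k, ?_⟩
  have h2 : n ^ 2 * a = n ^ 2 * (k * k) := by
    rw [mul_comm, hr, hk]; ring
  exact mul_left_cancel₀ (pow_ne_zero 2 hn) h2

theorem grow {V Z E : ℤ} (hE : 0 < E) (hVZ : 0 ≤ V * Z) (h : V ≠ 0 ∨ Z ≠ 0) :
    |V| < |V * (1 + 2 * E) + 2 * Z| := by
  rw [← sq_lt_sq]
  have e : (V * (1 + 2 * E) + 2 * Z) ^ 2 =
      V ^ 2 + 4 * (V ^ 2 * (E + E ^ 2)) + 4 * ((V * Z) * (1 + 2 * E)) + 4 * Z ^ 2 := by ring
  rw [e]
  have h1 : 0 ≤ V ^ 2 * (E + E ^ 2) := by positivity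
  have h2 : 0 ≤ (V * Z) * (1 + 2 * E) := mul_nonneg hVZ (by linarith)
  have h3 : 0 ≤ Z ^ 2 := sq_nonneg Z
  rcases h with h | h
  · have : 0 < V ^ 2 * (E + E ^ 2) := by positivity
    linarith
  · have : 0 < Z ^ 2 := by positivity
    linarith

theorem pell_id {A C N s t V W : ℤ} (h : s ^ 2 - A * C * N ^ 2 * t ^ 2 = 1) :
    C * (V * (1 + 2 * (A * C * N ^ 2 * t ^ 2)) + 2 * (A * N * s * t * W)) ^ 2 -
      A * (W * (1 + 2 * (A * C * N ^ 2 * t ^ 2)) + 2 * (C * N * s * t * V)) ^ 2 =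
      C * V ^ 2 - A * W ^ 2 := by
  linear_combination (-(C * V ^ 2 - A * W ^ 2) * 4 * (A * C * N ^ 2 * t ^ 2)) * h

/-- the orbit of a solution of the Pell type equation is unbounded: one step -/
theorem step {A C N I J K : ℤ} (hN : N ≠ 0) (hA : A ≠ 0) {s t : ℤ} (hD : 0 < A * C * N ^ 2)
    (hst : s ^ 2 - A * C * N ^ 2 * t ^ 2 = 1) (ht : t ≠ 0) (hs : s ≠ 0) (μ l : ℤ)
    (h1 : C * (I + 2 * A * N * μ) ^ 2 - A * (J + 2 * C * N * l) ^ 2 = C * I ^ 2 - A * J ^ 2)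
    (h2 : K ≤ |I + 2 * A * N * μ|) (h3 : I + 2 * A * N * μ ≠ 0 ∨ J + 2 * C * N * l ≠ 0)
    (hpos : 0 ≤ (I + 2 * A * N * μ) * (A * N * s * t * (J + 2 * C * N * l))) :
    ∃ μ l : ℤ, C * (I + 2 * A * N * μ) ^ 2 - A * (J + 2 * C * N * l) ^ 2 =
      C * I ^ 2 - A * J ^ 2 ∧ K + 1 ≤ |I + 2 * A * N * μ| ∧
      (I + 2 * A * N * μ ≠ 0 ∨ J + 2 * C * N * l ≠ 0) := by
  generalize hV : I + 2 * A * N * μ = V at *
  generalize hW : J + 2 * C * N * l = W at *
  have hE : 0 < A * C * N ^ 2 * t ^ 2 := by positivity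
  refine ⟨μ + (C * N * t ^ 2 * V + s * t * W), l + (A * N * t ^ 2 * W + s * t * V), ?_⟩
  have e1 : I + 2 * A * N * (μ + (C * N * t ^ 2 * V + s * t * W)) =
      V * (1 + 2 * (A * C * N ^ 2 * t ^ 2)) + 2 * (A * N * s * t * W) := by
    linear_combination hV
  have e2 : J + 2 * C * N * (l + (A * N * t ^ 2 * W + s * t * V)) =
      W * (1 + 2 * (A * C * N ^ 2 * t ^ 2)) + 2 * (C * N * s * t * V) := by
    linear_combination hW
  rw [e1, e2]
  have habs : |V| < |V * (1 + 2 * (A * C * N ^ 2 * t ^ 2)) + 2 * (A * N * s * t * W)| := by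
    refine grow hE hpos ?_
    rcases h3 with h | h
    · exact Or.inl h
    · exact Or.inr (mul_ne_zero (mul_ne_zero (mul_ne_zero (mul_ne_zero hA hN) hs) ht) h)
  refine ⟨(pell_id hst).trans h1, by linarith, Or.inl ?_⟩
  intro h0
  rw [h0, abs_zero] at habs
  exact absurd habs (not_lt.2 (abs_nonneg V))

theorem orbit {A C N I J : ℤ} (hN : N ≠ 0) (hAC : 0 < A * C) (hns : ¬ IsSquare (A * C))
    (hIJ : I ≠ 0 ∨ J ≠ 0) (K : ℕ) :
    ∃ μ l : ℤ, C * (I + 2 * A * N * μ) ^ 2 - A * (J + 2 * C * N * l) ^ 2 =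
      C * I ^ 2 - A * J ^ 2 ∧ (K : ℤ) ≤ |I + 2 * A * N * μ| ∧
      (I + 2 * A * N * μ ≠ 0 ∨ J + 2 * C * N * l ≠ 0) := by
  have hD : 0 < A * C * N ^ 2 := mul_pos hAC (by positivity)
  have hDns : ¬ IsSquare (A * C * N ^ 2) := fun h => hns (sq_of_mul hN h)
  obtain ⟨s, t, hst, ht⟩ := Pell.exists_of_not_isSquare hD hDns
  have ht2 : 0 < t ^ 2 := by positivity
  have hs : s ≠ 0 := by
    intro h0
    have h1 := mul_pos hD ht2
    rw [h0] at hst
    linarith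
  have hA : A ≠ 0 := fun h => by simp [h] at hAC
  induction K with
  | zero => exact ⟨0, 0, by ring, by simp, by simpa using hIJ⟩
  | succ K ih =>
    obtain ⟨μ, l, h1, h2, h3⟩ := ih
    rcases le_total 0 ((I + 2 * A * N * μ) * (A * N * s * t * (J + 2 * C * N * l))) with h | h
    · have := step hN hA hD hst ht hs μ l h1 h2 h3 h
      push_cast
      exact this
    · have hst' : s ^ 2 - A * C * N ^ 2 * (-t) ^ 2 = 1 := by rw [neg_sq]; exact hst
      have e : (I + 2 * A * N * μ) * (A * N * s * -t * (J + 2 * C * N * l)) =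
          -((I + 2 * A * N * μ) * (A * N * s * t * (J + 2 * C * N * l))) := by ring
      have := step hN hA hD hst' (neg_ne_zero.2 ht) hs μ l h1 h2 h3 (by rw [e]; linarith)
      push_cast
      exact this

theorem big {n₀ b r N M : ℤ} (hN : 1 ≤ N) (hr : |M| + |n₀| + 2 * |b| + 1 ≤ |r|) :
    M < n₀ + 2 * r * b + r ^ 2 * N := by
  have h1 : r ^ 2 ≤ r ^ 2 * N := le_mul_of_one_le_right (sq_nonneg r) hN
  have h2 : -(2 * |b| * |r|) ≤ 2 * r * b := by
    have e1 : |2 * r * b| = 2 * |b| * |r| := by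
      rw [abs_mul, abs_mul, abs_two]; ring
    rw [← e1]
    exact neg_abs_le _
  have h3 : r ^ 2 = |r| * |r| := by rw [← sq_abs, pow_two]
  have hM0 := abs_nonneg M
  have hn0 := abs_nonneg n₀
  have hb0 := abs_nonneg b
  have h4 : |M| + |n₀| + 1 ≤ |r| * (|r| - 2 * |b|) := by
    calc |M| + |n₀| + 1 = 1 * (|M| + |n₀| + 1) := by ring
      _ ≤ |r| * (|r| - 2 * |b|) :=
        mul_le_mul (by linarith) (by linarith) (by linarith) (abs_nonneg r)
  have h5 : |r| * (|r| - 2 * |b|) = |r| * |r| - 2 * |b| * |r| := by ring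
  have h6 := le_abs_self M
  have h7 := neg_abs_le n₀
  linarith

/-- One suitable translate of `H` into the sums of two squares gives infinitely many. -/
theorem many (H : Finset ℤ) (n₀ c d p q b : ℤ) (x y : ℤ → ℤ) (hpq : p ≠ 0 ∨ q ≠ 0)
    (hrep : ∀ h ∈ H, n₀ + h = x h ^ 2 + y h ^ 2)
    (hline : ∀ h ∈ H, h ≠ c → h ≠ d → p * x h + q * y h = b)
    (hpos : 0 < (b - (p * x c + q * y c)) * (b - (p * x d + q * y d)))
    (hns : ¬ IsSquare ((b - (p * x c + q * y c)) * (b - (p * x d + q * y d))))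
    (hnd : p * y c - q * x c ≠ 0 ∨ p * y d - q * x d ≠ 0) :
    {n : ℤ | ∀ h ∈ H, ∃ u v : ℤ, n + h = u ^ 2 + v ^ 2}.Infinite := by
  obtain ⟨A, hA⟩ : ∃ A, A = b - (p * x c + q * y c) := ⟨_, rfl⟩
  obtain ⟨C, hC⟩ : ∃ C, C = b - (p * x d + q * y d) := ⟨_, rfl⟩
  obtain ⟨N, hN⟩ : ∃ N, N = p ^ 2 + q ^ 2 := ⟨_, rfl⟩
  obtain ⟨I, hI⟩ : ∃ I, I = p * y c - q * x c := ⟨_, rfl⟩
  obtain ⟨J, hJ⟩ : ∃ J, J = p * y d - q * x d := ⟨_, rfl⟩
  rw [← hA, ← hC] at hpos hns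
  rw [← hI, ← hJ] at hnd
  have hN0 : 0 < N := by
    rw [hN]
    rcases hpq with h | h
    · have : 0 < p ^ 2 := by positivity
      linarith [sq_nonneg q]
    · have : 0 < q ^ 2 := by positivity
      linarith [sq_nonneg p]
  have hA0 : A ≠ 0 := fun h => by simp [h] at hpos
  have hC0 : C ≠ 0 := fun h => by simp [h] at hpos
  intro hfin
  obtain ⟨M, hM⟩ := hfin.bddAbove
  obtain ⟨T, hT⟩ : ∃ T : ℤ, T = |M| + |n₀| + 2 * |b| + 1 := ⟨_, rfl⟩
  have hT0 : 0 ≤ T := by rw [hT]; positivity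
  obtain ⟨μ, l, h1, h2, -⟩ := orbit (K := (I ^ 2 + 2 * |A| * N * T + 1).toNat) hN0.ne' hpos hns hnd
  have hK0 : 0 ≤ 2 * |A| * N * T := by positivity
  have hK : ((I ^ 2 + 2 * |A| * N * T + 1).toNat : ℤ) = I ^ 2 + 2 * |A| * N * T + 1 :=
    Int.toNat_of_nonneg (by linarith [sq_nonneg I])
  rw [hK] at h2
  obtain ⟨V, hV⟩ : ∃ V, V = I + 2 * A * N * μ := ⟨_, rfl⟩
  obtain ⟨W, hW⟩ : ∃ W, W = J + 2 * C * N * l := ⟨_, rfl⟩
  rw [← hV] at h1 h2
  rw [← hW] at h1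
  obtain ⟨r, hr⟩ : ∃ r : ℤ, r = 2 * μ * I + 2 * A * N * μ ^ 2 := ⟨_, rfl⟩
  have hr1 : V ^ 2 - I ^ 2 = 2 * A * N * r := by rw [hV, hr]; ring
  have hr2 : r = 2 * l * J + 2 * C * N * l ^ 2 := by
    have e3 : W ^ 2 - J ^ 2 = 2 * C * N * (2 * l * J + 2 * C * N * l ^ 2) := by rw [hW]; ring
    have e1 : 2 * (A * C * N) * r = 2 * (A * C * N) * (2 * l * J + 2 * C * N * l ^ 2) := by
      linear_combination h1 - C * hr1 + A * e3
    have e4 : 2 * (A * C * N) ≠ 0 :=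
      mul_ne_zero two_ne_zero (mul_ne_zero (mul_ne_zero hA0 hC0) hN0.ne')
    exact mul_left_cancel₀ e4 e1
  -- the translate
  have hmem : n₀ + 2 * r * b + r ^ 2 * N ∈
      {n : ℤ | ∀ h ∈ H, ∃ u v : ℤ, n + h = u ^ 2 + v ^ 2} := by
    intro h hh
    have hz := hrep h hh
    by_cases hhc : h = c
    · subst hhc
      refine ⟨x h + (r * p - 2 * A * μ * q), y h + (r * q + 2 * A * μ * p), ?_⟩
      have e1 : 2 * (2 * A * μ) * I + (2 * A * μ) ^ 2 * N = 2 * r * A := by rw [hr]; ring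
      have e2 : (x h + (r * p - 2 * A * μ * q)) ^ 2 + (y h + (r * q + 2 * A * μ * p)) ^ 2 =
          (x h ^ 2 + y h ^ 2) + 2 * r * (p * x h + q * y h) +
            (2 * (2 * A * μ) * I + (2 * A * μ) ^ 2 * N) + r ^ 2 * N := by
        rw [hI, hN]; ring
      rw [e2, e1, ← hz, hA]
      ring
    · by_cases hhd : h = d
      · subst hhd
        refine ⟨x h + (r * p - 2 * C * l * q), y h + (r * q + 2 * C * l * p), ?_⟩
        have e1 : 2 * (2 * C * l) * J + (2 * C * l) ^ 2 * N = 2 * r * C := by rw [hr2]; ring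
        have e2 : (x h + (r * p - 2 * C * l * q)) ^ 2 + (y h + (r * q + 2 * C * l * p)) ^ 2 =
            (x h ^ 2 + y h ^ 2) + 2 * r * (p * x h + q * y h) +
              (2 * (2 * C * l) * J + (2 * C * l) ^ 2 * N) + r ^ 2 * N := by
          rw [hJ, hN]; ring
        rw [e2, e1, ← hz, hC]
        ring
      · refine ⟨x h + r * p, y h + r * q, ?_⟩
        have e1 := hline h hh hhc hhd
        have e2 : (x h + r * p) ^ 2 + (y h + r * q) ^ 2 =
            (x h ^ 2 + y h ^ 2) + 2 * r * (p * x h + q * y h) + r ^ 2 * N := by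
          rw [hN]; ring
        rw [e2, e1, ← hz]
        ring
  have hle := hM hmem
  -- size
  have hV2 : I ^ 2 + 2 * |A| * N * T + 1 ≤ V ^ 2 := by
    have e1 : 1 ≤ |V| := by linarith [sq_nonneg I]
    have e2 : |V| ≤ |V| ^ 2 := le_self_pow₀ e1 two_ne_zero
    rw [sq_abs] at e2
    exact h2.trans e2
  have hrT : T ≤ |r| := by
    have e1 : |V ^ 2 - I ^ 2| = 2 * |A| * N * |r| := by
      rw [hr1, abs_mul, abs_mul, abs_mul, abs_two, abs_of_pos hN0]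
    have e2 : 2 * |A| * N * T ≤ 2 * |A| * N * |r| := by
      rw [← e1]
      exact le_trans (by linarith) (le_abs_self _)
    exact le_of_mul_le_mul_left e2 (by positivity)
  rw [hT] at hrT
  exact absurd hle (not_le.2 (big hN0 hrT))

end Pool.Agent.TH740.SQ
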